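import Pool.Agent.TH56.CM.Rlx

/-!
# The edge-magic deficiency of trees is at most `4 (L - 2) min (⌊log₂ (L - 1)⌋, 6)`

Let `T` be a tree with at least one edge, and let `L` be the number of leaves of the tree obtained
from `T` by deleting all leaves of `T`.  Then there is a number `n ≤ 4 (L - 2) min (⌊log₂ (L - 1)⌋, 6)` such
that the disjoint union of `T` and `n` isolated vertices is edge-magic.
-/

set_option autoImplicit false

namespace Pool.Agent.Results.MP_8b7544_co.EdgeMagicDeficiency

/-- The number of the vertices of `T` which are not leaves and have at most one neighbour that is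
not a leaf, i.e. of the vertices of degree at most `1` of the tree obtained from `T` by deleting all
leaves. -/
noncomputable def derivedLeaves {V : Type} (T : SimpleGraph V) : ℕ :=
  {x : V | 2 ≤ (T.neighborSet x).ncard ∧
    {y : V | T.Adj x y ∧ 2 ≤ (T.neighborSet y).ncard}.ncard ≤ 1}.ncard

/-- Let `T` be a finite tree with `m ≥ 1` edges, and `L` the number of leaves of the tree obtained
from `T` by deleting all leaves.  Then there is a number `n ≤ 4 (L - 2) min (⌊log₂ (L - 1)⌋, 6)` (truncated
subtraction) such that the graph consisting of `T` and `n` isolated vertices is edge-magic: there is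
a bijection `f` of its vertices and edges (the elements of `V`, the edges of `T`, and the `n`
isolated vertices) to `{1, …, |V| + m + n}` such that the sum of the label of an edge and the
labels of its two ends is the same number `k` for all edges. -/
theorem result (V : Type) [Fintype V] (T : SimpleGraph V) (hT : T.IsTree)
    (he : 1 ≤ T.edgeSet.ncard) :
    ∃ (n k : ℕ) (f : V ⊕ T.edgeSet ⊕ Fin n → ℕ),
      n ≤ 4 * (derivedLeaves T - 2) * min (Nat.log 2 (derivedLeaves T - 1)) 6 ∧
      Set.BijOn f Set.univ (Set.Icc 1 (Fintype.card V + T.edgeSet.ncard + n)) ∧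
      ∀ (u v : V) (h : T.Adj u v),
        f (Sum.inl u) + f (Sum.inr (Sum.inl ⟨s(u, v), h⟩)) + f (Sum.inl v) = k := by
  classical
  have hcard : Fintype.card V = T.edgeSet.ncard + 1 := by
    have h1 := hT.card_edgeFinset
    rw [Set.ncard_eq_toFinset_card', ← h1]
    rfl
  have hcardE : Fintype.card T.edgeSet = T.edgeSet.ncard := by
    rw [Set.ncard_eq_toFinset_card', Set.toFinset_card]
  obtain ⟨col, hcol⟩ := Pool.Agent.TH56.CL.exists_col hT
  obtain ⟨M, hR, f6⟩ := Pool.Agent.TH56.CM.rlx_both hT he
  obtain ⟨θ, f, f1, f2, hθ, hθM, -, f4, f5⟩ := hR.bip he col hcol true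
  -- the labels of the vertices
  obtain ⟨g, hg⟩ : ∃ g : V → ℕ, ∀ x, (f x < θ ∧ g x = f x + 1) ∨
      (θ ≤ f x ∧ g x + f x = M + θ + 1) := by
    refine ⟨fun x => if f x < θ then f x + 1 else M + θ + 1 - f x, fun x => ?_⟩
    simp only
    have := f2 x
    by_cases h : f x < θ
    · rw [if_pos h]
      exact Or.inl ⟨h, rfl⟩
    · rw [if_neg h]
      exact Or.inr ⟨by omega, by omega⟩
  have hg1 : ∀ x, 1 ≤ g x ∧ g x ≤ M + 1 := by
    intro x
    have := f2 x
    rcases hg x with h | h <;> omega
  have hginj : ∀ x y, g x = g y → x = y := by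
    intro x y h
    have h4 := f2 x
    have h5 := f2 y
    apply f1
    rcases hg x with h2 | h2 <;> rcases hg y with h3 | h3 <;> omega
  -- the labels of the edges
  have hE : ∀ e : T.edgeSet, ∃ x y, T.Adj x y ∧ f x < θ ∧ θ ≤ f y ∧ (e : Sym2 V) = s(x, y) := by
    rintro ⟨e, he⟩
    induction e using Sym2.ind with
    | _ a b =>
      rcases f4 a b he with h | h
      · exact ⟨a, b, he, h.1, h.2, rfl⟩
      · exact ⟨b, a, (show T.Adj a b from he).symm, h.1, h.2, Sym2.eq_swap⟩
  choose ex ey hadj hex hey heq using hE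
  let w : V ⊕ T.edgeSet → ℕ := Sum.elim g (fun e => M + 1 + (f (ey e) - f (ex e)))
  have hw1 : ∀ z, 1 ≤ w z ∧ w z ≤ 2 * M + 1 := by
    rintro (x | e)
    · have := hg1 x
      show 1 ≤ g x ∧ g x ≤ 2 * M + 1
      omega
    · show 1 ≤ M + 1 + (f (ey e) - f (ex e)) ∧ M + 1 + (f (ey e) - f (ex e)) ≤ 2 * M + 1
      have := f2 (ey e)
      omega
  have hwinj : Function.Injective w := by
    rintro (x | e) (x' | e') h
    · exact congrArg Sum.inl (hginj _ _ h)
    · exfalso
      have h2 : g x = M + 1 + (f (ey e') - f (ex e')) := h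
      have h3 := hg1 x
      have h4 := hex e'
      have h5 := hey e'
      omega
    · exfalso
      have h2 : M + 1 + (f (ey e) - f (ex e)) = g x' := h
      have h3 := hg1 x'
      have h4 := hex e
      have h5 := hey e
      omega
    · have h2 : M + 1 + (f (ey e) - f (ex e)) = M + 1 + (f (ey e') - f (ex e')) := h
      have h4 := hex e
      have h5 := hey e
      have h6 := hex e'
      have h7 := hey e'
      obtain ⟨h8, h9⟩ := f5 _ _ _ _ (hadj e) (hadj e') h4 h6 (by omega)
      refine congrArg Sum.inr (Subtype.ext ?_)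
      rw [heq e, heq e', h8, h9]
  -- the unused labels
  let R : Finset ℕ := Finset.Icc 1 (2 * M + 1) \ Finset.univ.image w
  have hsub : Finset.univ.image w ⊆ Finset.Icc 1 (2 * M + 1) := by
    intro t ht
    obtain ⟨z, -, rfl⟩ := Finset.mem_image.1 ht
    exact Finset.mem_Icc.2 (hw1 z)
  have hRcard : R.card + (2 * T.edgeSet.ncard + 1) = 2 * M + 1 := by
    have h1 := Finset.card_sdiff_add_card_eq_card hsub
    rw [Finset.card_image_of_injective _ hwinj, Finset.card_univ, Fintype.card_sum, hcard, hcardE,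
      Nat.card_Icc] at h1
    have h2 : R.card = (Finset.Icc 1 (2 * M + 1) \ Finset.univ.image w).card := rfl
    omega
  have hM : R.card ≤ 4 * (derivedLeaves T - 2) * min (Nat.log 2 (derivedLeaves T - 1)) 6 := by
    have h1 : M ≤ T.edgeSet.ncard +
      2 * (derivedLeaves T - 2) * min (Nat.log 2 (derivedLeaves T - 1)) 6 := f6
    have h2 : 4 * (derivedLeaves T - 2) * min (Nat.log 2 (derivedLeaves T - 1)) 6 =
      2 * (2 * (derivedLeaves T - 2) * min (Nat.log 2 (derivedLeaves T - 1)) 6) := by ring
    omega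
  let r : Fin R.card → ℕ := fun i => (R.equivFin.symm i : ℕ)
  have hr1 : ∀ i, r i ∈ R := fun i => (R.equivFin.symm i).2
  have hrinj : Function.Injective r := by
    intro i j h
    exact R.equivFin.symm.injective (Subtype.ext h)
  have hrsurj : ∀ t ∈ R, ∃ i, r i = t := by
    intro t ht
    refine ⟨R.equivFin ⟨t, ht⟩, ?_⟩
    show ((R.equivFin.symm (R.equivFin ⟨t, ht⟩) : R) : ℕ) = t
    rw [Equiv.symm_apply_apply]
  refine ⟨R.card, M + θ + 2 + (M + 1), Sum.elim g (Sum.elim (fun e => w (Sum.inr e)) r), hM,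
    ⟨?_, ?_, ?_⟩, ?_⟩
  · rintro (x | e | i) -
    · rw [hcard]
      have := hg1 x
      show 1 ≤ g x ∧ g x ≤ _
      omega
    · rw [hcard]
      have := hw1 (Sum.inr e)
      show 1 ≤ w (Sum.inr e) ∧ w (Sum.inr e) ≤ _
      omega
    · rw [hcard]
      have := Finset.mem_Icc.1 (Finset.mem_sdiff.1 (hr1 i)).1
      show 1 ≤ r i ∧ r i ≤ _
      omega
  · have hwr : ∀ z i, w z ≠ r i := by
      intro z i h
      apply (Finset.mem_sdiff.1 (hr1 i)).2
      rw [← h]
      exact Finset.mem_image_of_mem _ (Finset.mem_univ _)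
    rintro (x | e | i) - (x' | e' | i') - h
    · exact congrArg Sum.inl (hginj _ _ h)
    · exact absurd (hwinj (show w (Sum.inl x) = w (Sum.inr e') from h)) (by simp)
    · exact absurd (show w (Sum.inl x) = r i' from h) (hwr _ _)
    · exact absurd (hwinj (show w (Sum.inr e) = w (Sum.inl x') from h)) (by simp)
    · have h2 := hwinj (show w (Sum.inr e) = w (Sum.inr e') from h)
      rw [Sum.inr.injEq] at h2
      rw [h2]
    · exact absurd (show w (Sum.inr e) = r i' from h) (hwr _ _)
    · exact absurd (show w (Sum.inl x') = r i from h.symm) (hwr _ _)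
    · exact absurd (show w (Sum.inr e') = r i from h.symm) (hwr _ _)
    · rw [hrinj (show r i = r i' from h)]
  · intro t ht
    rw [hcard] at ht
    have ht2 : t ∈ Finset.Icc 1 (2 * M + 1) := by
      have := Set.mem_Icc.1 ht
      exact Finset.mem_Icc.2 (by omega)
    by_cases h : t ∈ Finset.univ.image w
    · obtain ⟨z, -, hz⟩ := Finset.mem_image.1 h
      rcases z with x | e
      · exact ⟨Sum.inl x, trivial, hz⟩
      · exact ⟨Sum.inr (Sum.inl e), trivial, hz⟩
    · obtain ⟨i, hi⟩ := hrsurj t (Finset.mem_sdiff.2 ⟨ht2, h⟩)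
      exact ⟨Sum.inr (Sum.inr i), trivial, hi⟩
  · intro u v h
    have key : ∀ e : T.edgeSet, (e : Sym2 V) = s(u, v) →
        g u + w (Sum.inr e) + g v = M + θ + 2 + (M + 1) := by
      intro e he
      have h1 := heq e
      have h2 := hex e
      have h3 := hey e
      rw [he] at h1
      show g u + (M + 1 + (f (ey e) - f (ex e))) + g v = _
      have h6 : g (ex e) + g (ey e) + f (ey e) = M + θ + 2 + f (ex e) := by
        rcases hg (ex e) with h4 | h4 <;> rcases hg (ey e) with h5 | h5 <;> omega
      rcases Sym2.eq_iff.1 h1 with ⟨h4, h5⟩ | ⟨h4, h5⟩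
      · rw [h4, h5]
        omega
      · rw [h4, h5]
        omega
    exact key _ rfl

end Pool.Agent.Results.MP_8b7544_co.EdgeMagicDeficiency
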